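import Mathlib

set_option autoImplicit false
set_option linter.unusedSectionVars false

open Finset

namespace Pool.Agent.Helper50.Basilica

/-- number of elements of `A` fixed by `σ`. -/
noncomputable def nfix {E G : Type*} [SMul G E] (A : Finset E) (σ : G) : ℕ := by
  classical
  exact (A.filter (fun w => σ • w = w)).card

theorem conv_ineq {u Y : ℝ} (hu : 0 ≤ u) (h1 : -u ≤ Y) (h2 : Y ≤ u) :
    1 / (u + 1) - Y / (u + 1) ^ 2 + Y ^ 2 / (2 * (u + 1) ^ 3) ≤ 1 / (u + Y + 1) := by
  have ha : 0 < u + 1 := by linarith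
  have hb : 0 < u + Y + 1 := by linarith
  rw [le_div_iff₀ hb]
  have : (1 / (u + 1) - Y / (u + 1) ^ 2 + Y ^ 2 / (2 * (u + 1) ^ 3)) * (u + Y + 1)
      = 1 - Y ^ 2 * (u + 1 - Y) / (2 * (u + 1) ^ 3) := by
    field_simp
    ring
  rw [this]
  have : 0 ≤ Y ^ 2 * (u + 1 - Y) / (2 * (u + 1) ^ 3) := by
    apply div_nonneg
    · apply mul_nonneg (sq_nonneg _); linarith
    · positivity
  linarith

section step

variable {E : Type*} [Field E] [CharZero E] [DecidableEq E] {G : Type*} [Group G] [Fintype G]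
  [MulSemiringAction G E] (A B : Finset E) (s : E → E)

/-- the sign of `σ` on `s w`. -/
noncomputable def sg (s : E → E) (σ : G) (w : E) : ℝ := if σ • s w = s w then 1 else -1

/-- pointwise stabiliser of `A`. -/
noncomputable def HH (G : Type*) [Group G] [Fintype G] [MulSemiringAction G E] (A : Finset E) :
    Finset G := by
  classical
  exact Finset.univ.filter (fun h => ∀ a ∈ A, h • a = a)

theorem mem_HH {h : G} : h ∈ HH G A ↔ ∀ a ∈ A, h • a = a := by
  classical
  simp [HH]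

variable {A B s}
variable (hs : ∀ w ∈ A, s w ^ 2 = 1 + w) (hs0 : ∀ w ∈ A, s w ≠ 0)
include hs hs0

theorem s_cases {σ : G} {w : E} (hw : w ∈ A) (hσ : σ • w = w) :
    σ • s w = s w ∨ σ • s w = - s w := by
  apply sq_eq_sq_iff_eq_or_eq_neg.mp
  rw [← smul_pow', hs w hw, smul_add, hσ, smul_one]

theorem sg_neg {σ : G} {w : E} (hw : w ∈ A) (hσ : σ • s w = - s w) : sg s σ w = -1 := by
  unfold sg
  rw [if_neg]
  intro h
  rw [h] at hσ
  have h2 : (2 : E) * s w = 0 := by linear_combination hσ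
  have := mul_eq_zero.mp h2
  rcases this with h3 | h3
  · exact two_ne_zero h3
  · exact hs0 w hw h3

theorem sg_pos {σ : G} {w : E} (hσ : σ • s w = s w) : sg s σ w = 1 := by
  unfold sg
  rw [if_pos hσ]

theorem sg_mul {σ h : G} {w : E} (hw : w ∈ A) (hσ : σ • w = w) (hh : h • w = w) :
    sg s (σ * h) w = sg s σ w * sg s h w := by
  rcases s_cases hs hs0 hw hσ with h1 | h1 <;> rcases s_cases hs hs0 hw hh with h2 | h2
  · rw [sg_pos hs hs0 h1, sg_pos hs hs0 h2, sg_pos hs hs0 (by rw [mul_smul, h2, h1])]; norm_num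
  · rw [sg_pos hs hs0 h1, sg_neg hs hs0 hw h2,
      sg_neg hs hs0 hw (by rw [mul_smul, h2, smul_neg, h1])]; norm_num
  · rw [sg_neg hs hs0 hw h1, sg_pos hs hs0 h2,
      sg_neg hs hs0 hw (by rw [mul_smul, h2, h1])]; norm_num
  · rw [sg_neg hs hs0 hw h1, sg_neg hs hs0 hw h2,
      sg_pos hs hs0 (by rw [mul_smul, h2, smul_neg, h1, neg_neg])]; norm_num

theorem sg_sq {σ : G} {w : E} : sg s σ w * sg s σ w = 1 := by
  unfold sg
  split_ifs <;> norm_num

theorem sum_H_mul_right {f : G → ℝ} {h₀ : G} (hh₀ : h₀ ∈ HH G A) :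
    ∑ h ∈ HH G A, f (h * h₀) = ∑ h ∈ HH G A, f h := by
  classical
  rw [mem_HH] at hh₀
  apply Finset.sum_bij (fun h _ => h * h₀)
  · intro h hh
    rw [mem_HH] at hh ⊢
    intro a ha
    rw [mul_smul, hh₀ a ha, hh a ha]
  · intro a _ b _ hab
    exact mul_right_cancel hab
  · intro h hh
    refine ⟨h * h₀⁻¹, ?_, by group⟩
    rw [mem_HH] at hh ⊢
    intro a ha
    rw [mul_smul]
    have : h₀⁻¹ • a = a := by
      conv_lhs => rw [← hh₀ a ha]
      rw [inv_smul_smul]
    rw [this, hh a ha]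
  · intro h _
    rfl

theorem sum_sg_zero {w : E} (hw : w ∈ A)
    (hD : ∃ h : G, (∀ a ∈ A, h • a = a) ∧ h • s w = - s w) :
    ∑ h ∈ HH G A, sg s h w = 0 := by
  obtain ⟨h₀, h1, h2⟩ := hD
  have hmem : h₀ ∈ HH G A := (mem_HH A).mpr h1
  have e1 := sum_H_mul_right hs hs0 (f := fun h => sg s h w) hmem
  have e2 : ∑ h ∈ HH G A, sg s (h * h₀) w = ∑ h ∈ HH G A, -(sg s h w) := by
    apply Finset.sum_congr rfl
    intro h hh
    rw [mem_HH] at hh
    rw [sg_mul hs hs0 hw (hh w hw) (h1 w hw), sg_neg hs hs0 hw h2]; ring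
  rw [e2, Finset.sum_neg_distrib] at e1
  linarith

theorem sum_sg_mul_zero {w w' : E} (hw : w ∈ A) (hw' : w' ∈ A)
    (hP : ∃ h : G, (∀ a ∈ A, h • a = a) ∧ h • (s w * s w') = - (s w * s w')) :
    ∑ h ∈ HH G A, sg s h w * sg s h w' = 0 := by
  obtain ⟨h₀, h1, h2⟩ := hP
  have hmem : h₀ ∈ HH G A := (mem_HH A).mpr h1
  have e1 := sum_H_mul_right hs hs0 (f := fun h => sg s h w * sg s h w') hmem
  have e3 : sg s h₀ w * sg s h₀ w' = -1 := by
    rw [smul_mul'] at h2
    rcases s_cases hs hs0 hw (h1 w hw) with h3 | h3 <;>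
      rcases s_cases hs hs0 hw' (h1 w' hw') with h4 | h4
    · exfalso
      rw [h3, h4] at h2
      have h5 : (2 : E) * (s w * s w') = 0 := by linear_combination h2
      rcases mul_eq_zero.mp h5 with h6 | h6
      · exact two_ne_zero h6
      · exact mul_ne_zero (hs0 w hw) (hs0 w' hw') h6
    · rw [sg_pos hs hs0 h3, sg_neg hs hs0 hw' h4]; norm_num
    · rw [sg_neg hs hs0 hw h3, sg_pos hs hs0 h4]; norm_num
    · exfalso
      rw [h3, h4] at h2
      have h5 : (2 : E) * (s w * s w') = 0 := by linear_combination h2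
      rcases mul_eq_zero.mp h5 with h6 | h6
      · exact two_ne_zero h6
      · exact mul_ne_zero (hs0 w hw) (hs0 w' hw') h6
  have e2 : ∑ h ∈ HH G A, sg s (h * h₀) w * sg s (h * h₀) w'
      = ∑ h ∈ HH G A, -(sg s h w * sg s h w') := by
    apply Finset.sum_congr rfl
    intro h hh
    rw [mem_HH] at hh
    rw [sg_mul hs hs0 hw (hh w hw) (h1 w hw), sg_mul hs hs0 hw' (hh w' hw') (h1 w' hw')]
    linear_combination (sg s h w * sg s h w') * e3
  rw [e2, Finset.sum_neg_distrib] at e1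
  linarith

variable (hB : ∀ v, v ∈ B ↔ v ^ 2 - 1 ∈ A)
include hB

theorem nfix_B (σ : G) :
    (nfix B σ : ℝ) = nfix A σ + ∑ w ∈ A.filter (fun w => σ • w = w), sg s σ w := by
  classical
  have h1 : (nfix B σ : ℝ) = ∑ w ∈ A, ((B.filter (fun v => σ • v = v)).filter
      (fun v => v ^ 2 - 1 = w)).card := by
    have : nfix B σ = (B.filter (fun v => σ • v = v)).card := by
      unfold nfix
      congr
    rw [this]
    norm_cast
    apply Finset.card_eq_sum_card_fiberwise
    intro v hv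
    simp only [Finset.coe_filter, Set.mem_ofPred_eq] at hv
    exact (hB v).mp hv.1
  have h2 : ∀ w ∈ A, (((B.filter (fun v => σ • v = v)).filter
      (fun v => v ^ 2 - 1 = w)).card : ℝ) = if σ • w = w then 1 + sg s σ w else 0 := by
    intro w hw
    by_cases hσ : σ • w = w
    · rw [if_pos hσ]
      rcases s_cases hs hs0 hw hσ with h3 | h3
      · rw [sg_pos hs hs0 h3]
        have : (B.filter (fun v => σ • v = v)).filter (fun v => v ^ 2 - 1 = w) = {s w, - s w} := by
          ext v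
          simp only [Finset.mem_filter, Finset.mem_insert, Finset.mem_singleton]
          constructor
          · rintro ⟨_, h5⟩
            apply sq_eq_sq_iff_eq_or_eq_neg.mp
            rw [hs w hw]; linear_combination h5
          · rintro (h5 | h5)
            · subst h5
              refine ⟨⟨(hB _).mpr (by rw [hs w hw]; simpa using hw), h3⟩, ?_⟩
              rw [hs w hw]; ring
            · subst h5
              refine ⟨⟨(hB _).mpr (by rw [neg_sq, hs w hw]; simpa using hw), ?_⟩, ?_⟩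
              · rw [smul_neg, h3]
              · rw [neg_sq, hs w hw]; ring
        rw [this, Finset.card_pair]
        · norm_num
        · intro h6
          have h5 : (2 : E) * s w = 0 := by linear_combination h6
          rcases mul_eq_zero.mp h5 with h6 | h6
          · exact two_ne_zero h6
          · exact hs0 w hw h6
      · rw [sg_neg hs hs0 hw h3]
        have : (B.filter (fun v => σ • v = v)).filter (fun v => v ^ 2 - 1 = w) = ∅ := by
          rw [Finset.eq_empty_iff_forall_notMem]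
          intro v hv
          simp only [Finset.mem_filter] at hv
          obtain ⟨⟨_, h4⟩, h5⟩ := hv
          have h6 : v = s w ∨ v = - s w := by
            apply sq_eq_sq_iff_eq_or_eq_neg.mp
            rw [hs w hw]; linear_combination h5
          have h7 : (2 : E) * s w = 0 := by
            rcases h6 with h6 | h6
            · rw [h6, h3] at h4; linear_combination -h4
            · rw [h6, smul_neg, h3] at h4; linear_combination h4
          rcases mul_eq_zero.mp h7 with h8 | h8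
          · exact two_ne_zero h8
          · exact hs0 w hw h8
        rw [this]
        norm_num
    · rw [if_neg hσ]
      have : (B.filter (fun v => σ • v = v)).filter (fun v => v ^ 2 - 1 = w) = ∅ := by
        rw [Finset.eq_empty_iff_forall_notMem]
        intro v hv
        simp only [Finset.mem_filter] at hv
        obtain ⟨⟨_, h4⟩, h5⟩ := hv
        apply hσ
        rw [← h5, smul_sub, smul_pow', h4, smul_one]
      rw [this]
      norm_num
  rw [h1]
  push_cast
  rw [Finset.sum_congr rfl h2, ← Finset.sum_filter, Finset.sum_add_distrib]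
  congr 1
  rw [Finset.sum_const, nsmul_eq_mul, mul_one]
  unfold nfix
  congr

variable (hD : ∀ w ∈ A, ∃ h : G, (∀ a ∈ A, h • a = a) ∧ h • s w = - s w)
include hD

/-- the sum over a coset of the pointwise stabiliser -/
theorem nfix_B_coset {σ h : G} (hh : h ∈ HH G A) :
    (nfix B (σ * h) : ℝ) = nfix A σ +
      ∑ w ∈ A.filter (fun w => σ • w = w), sg s σ w * sg s h w := by
  classical
  rw [mem_HH] at hh
  have e1 : A.filter (fun w => (σ * h) • w = w) = A.filter (fun w => σ • w = w) := by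
    apply Finset.filter_congr
    intro w hw
    rw [mul_smul, hh w hw]
  rw [nfix_B hs hs0 hB, e1]
  have e2 : nfix A (σ * h) = nfix A σ := by
    unfold nfix
    congr 1
    ext w
    simp only [Finset.mem_filter]
    constructor
    · rintro ⟨hw, h1⟩
      refine ⟨hw, ?_⟩
      rwa [mul_smul, hh w hw] at h1
    · rintro ⟨hw, h1⟩
      refine ⟨hw, ?_⟩
      rwa [mul_smul, hh w hw]
  rw [e2]
  congr 1
  apply Finset.sum_congr rfl
  intro w hw
  rw [Finset.mem_filter] at hw
  exact sg_mul hs hs0 hw.1 hw.2 (hh w hw.1)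

theorem HH_nonempty : 0 < (HH G A).card := by
  rw [Finset.card_pos]
  exact ⟨1, (mem_HH A).mpr (fun a _ => one_smul G a)⟩

theorem sum_coset (f : G → ℝ) :
    ∑ σ : G, ∑ h ∈ HH G A, f (σ * h) = (HH G A).card * ∑ σ : G, f σ := by
  rw [Finset.sum_comm]
  have : ∀ h ∈ HH G A, ∑ σ : G, f (σ * h) = ∑ σ : G, f σ := by
    intro h _
    exact Fintype.sum_equiv (Equiv.mulRight h) _ _ (fun σ => rfl)
  rw [Finset.sum_congr rfl this, Finset.sum_const, nsmul_eq_mul]

theorem sum_Y_zero (σ : G) :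
    ∑ h ∈ HH G A, ∑ w ∈ A.filter (fun w => σ • w = w), sg s σ w * sg s h w = 0 := by
  rw [Finset.sum_comm]
  apply Finset.sum_eq_zero
  intro w hw
  rw [Finset.mem_filter] at hw
  rw [← Finset.mul_sum, sum_sg_zero hs hs0 hw.1 (hD w hw.1), mul_zero]

theorem sum_nfix_eq : ∑ σ : G, (nfix B σ : ℝ) = ∑ σ : G, (nfix A σ : ℝ) := by
  have h1 := sum_coset hs hs0 hB hD (fun σ : G => (nfix B σ : ℝ))
  have h2 : ∀ σ : G, ∑ h ∈ HH G A, (nfix B (σ * h) : ℝ) = (HH G A).card * (nfix A σ : ℝ) := by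
    intro σ
    rw [Finset.sum_congr rfl (fun h hh => nfix_B_coset hs hs0 hB hD hh), Finset.sum_add_distrib,
      sum_Y_zero hs hs0 hB hD, add_zero, Finset.sum_const, nsmul_eq_mul]
  rw [Finset.sum_congr rfl (fun σ _ => h2 σ), ← Finset.mul_sum] at h1
  have h3 : ((HH G A).card : ℝ) ≠ 0 := by
    have := HH_nonempty hs hs0 hB hD
    positivity
  exact (mul_left_cancel₀ h3 h1).symm

variable (hP : ∀ w ∈ A, ∀ w' ∈ A, w ≠ w' →
    ∃ h : G, (∀ a ∈ A, h • a = a) ∧ h • (s w * s w') = - (s w * s w'))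
include hP

theorem sum_Y_sq (σ : G) :
    ∑ h ∈ HH G A, (∑ w ∈ A.filter (fun w => σ • w = w), sg s σ w * sg s h w) ^ 2
      = (HH G A).card * (nfix A σ : ℝ) := by
  classical
  have h1 : ∀ h : G, (∑ w ∈ A.filter (fun w => σ • w = w), sg s σ w * sg s h w) ^ 2
      = ∑ w ∈ A.filter (fun w => σ • w = w), ∑ w' ∈ A.filter (fun w => σ • w = w),
        (sg s σ w * sg s σ w') * (sg s h w * sg s h w') := by
    intro h
    rw [sq, Finset.sum_mul_sum]
    apply Finset.sum_congr rfl
    intro w _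
    apply Finset.sum_congr rfl
    intro w' _
    ring
  rw [Finset.sum_congr rfl (fun h _ => h1 h), Finset.sum_comm]
  have h2 : ∀ w ∈ A.filter (fun w => σ • w = w),
      ∑ h ∈ HH G A, ∑ w' ∈ A.filter (fun w => σ • w = w),
        (sg s σ w * sg s σ w') * (sg s h w * sg s h w') = (HH G A).card := by
    intro w hw
    rw [Finset.sum_comm]
    rw [Finset.sum_eq_single w]
    · have : ∀ h ∈ HH G A, (sg s σ w * sg s σ w) * (sg s h w * sg s h w) = 1 := by
        intro h _
        rw [sg_sq hs hs0, sg_sq hs hs0]; norm_num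
      rw [Finset.sum_congr rfl this, Finset.sum_const, nsmul_eq_mul, mul_one]
    · intro w' hw' hne
      rw [Finset.mem_filter] at hw hw'
      rw [← Finset.mul_sum, sum_sg_mul_zero hs hs0 hw.1 hw'.1 (hP w hw.1 w' hw'.1 hne.symm),
        mul_zero]
    · intro h
      exact absurd hw h
  rw [Finset.sum_congr rfl h2, Finset.sum_const, nsmul_eq_mul, mul_comm]
  congr 1
  unfold nfix
  congr

theorem one_step :
    ∑ σ : G, (1 / ((nfix A σ : ℝ) + 1) + (nfix A σ : ℝ) / (2 * ((nfix A σ : ℝ) + 1) ^ 3))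
      ≤ ∑ σ : G, 1 / ((nfix B σ : ℝ) + 1) := by
  have h1 := sum_coset hs hs0 hB hD (fun σ : G => 1 / ((nfix B σ : ℝ) + 1))
  have hH : (0 : ℝ) < (HH G A).card := by exact_mod_cast HH_nonempty hs hs0 hB hD
  have h2 : ∀ σ : G, (HH G A).card * (1 / ((nfix A σ : ℝ) + 1) +
      (nfix A σ : ℝ) / (2 * ((nfix A σ : ℝ) + 1) ^ 3)) ≤
      ∑ h ∈ HH G A, 1 / ((nfix B (σ * h) : ℝ) + 1) := by
    intro σ
    set u : ℝ := (nfix A σ : ℝ) with hu
    have hu0 : 0 ≤ u := by positivity
    have h3 : ∀ h ∈ HH G A,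
        1 / (u + 1) - (∑ w ∈ A.filter (fun w => σ • w = w), sg s σ w * sg s h w) / (u + 1) ^ 2
          + (∑ w ∈ A.filter (fun w => σ • w = w), sg s σ w * sg s h w) ^ 2 / (2 * (u + 1) ^ 3)
        ≤ 1 / ((nfix B (σ * h) : ℝ) + 1) := by
      intro h hh
      have h4 := nfix_B_coset hs hs0 hB hD (σ := σ) hh
      rw [h4]
      apply conv_ineq hu0
      · have : (0 : ℝ) ≤ nfix B (σ * h) := by positivity
        rw [h4] at this
        linarith
      · have : ∑ w ∈ A.filter (fun w => σ • w = w), sg s σ w * sg s h w ≤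
            ∑ w ∈ A.filter (fun w => σ • w = w), (1 : ℝ) := by
          apply Finset.sum_le_sum
          intro w _
          unfold sg
          split_ifs <;> norm_num
        rw [Finset.sum_const, nsmul_eq_mul, mul_one] at this
        have h5 : ((A.filter (fun w => σ • w = w)).card : ℝ) = u := by
          rw [hu]
          unfold nfix
          congr
        rw [h5] at this
        exact this
    calc (HH G A).card * (1 / (u + 1) + u / (2 * (u + 1) ^ 3))
        = ∑ h ∈ HH G A,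
        (1 / (u + 1) - (∑ w ∈ A.filter (fun w => σ • w = w), sg s σ w * sg s h w) / (u + 1) ^ 2
          + (∑ w ∈ A.filter (fun w => σ • w = w), sg s σ w * sg s h w) ^ 2
            / (2 * (u + 1) ^ 3)) := by
          rw [Finset.sum_add_distrib, Finset.sum_sub_distrib, ← Finset.sum_div _ _ ((u + 1) ^ 2),
            ← Finset.sum_div _ _ (2 * (u + 1) ^ 3), sum_Y_zero hs hs0 hB hD,
            sum_Y_sq hs hs0 hB hD hP, Finset.sum_const, nsmul_eq_mul]
          ring
      _ ≤ _ := Finset.sum_le_sum h3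
  have h6 := Finset.sum_le_sum (fun σ (_ : σ ∈ (Finset.univ : Finset G)) => h2 σ)
  rw [h1, ← Finset.mul_sum] at h6
  exact le_of_mul_le_mul_left h6 hH

end step

section iterate

variable {E : Type*} [Field E] [CharZero E] [DecidableEq E] {G : Type*} [Group G] [Fintype G]
  [MulSemiringAction G E] (A : ℕ → Finset E) (s : E → E) (L : ℕ)

/-- the number of `σ` with a fixed point in `A`. -/
noncomputable def nfp (G : Type*) {E : Type*} [Group G] [Fintype G] [SMul G E] (A : Finset E) :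
    ℕ := by
  classical
  exact (Finset.univ.filter (fun σ : G => ∃ w ∈ A, σ • w = w)).card

omit [DecidableEq E] in
theorem nfix_pos_iff (A : Finset E) (σ : G) : 0 < nfix A σ ↔ ∃ w ∈ A, σ • w = w := by
  classical
  unfold nfix
  rw [Finset.card_pos]
  simp only [Finset.Nonempty, Finset.mem_filter]

theorem nfp_le (A : Finset E) (n : ℕ) (hn : 1 ≤ n) :
    (nfp G A : ℝ) ≤ n ^ 3 * ∑ σ : G, (nfix A σ : ℝ) / ((nfix A σ : ℝ) + 1) ^ 3
      + (1 / n) * ∑ σ : G, (nfix A σ : ℝ) := by
  classical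
  have h1 : (nfp G A : ℝ) = ∑ σ : G, if 0 < nfix A σ then (1 : ℝ) else 0 := by
    rw [← Finset.sum_filter, Finset.sum_const, nsmul_eq_mul, mul_one]
    unfold nfp
    norm_cast
    congr 1
    ext σ
    simp only [Finset.mem_filter, Finset.mem_univ, true_and]
    exact (nfix_pos_iff A σ).symm
  rw [h1, Finset.mul_sum, Finset.mul_sum, ← Finset.sum_add_distrib]
  apply Finset.sum_le_sum
  intro σ _
  have hn' : (1 : ℝ) ≤ n := by exact_mod_cast hn
  split_ifs with h0
  · by_cases h2 : n ≤ nfix A σ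
    · have h3 : (1 : ℝ) ≤ 1 / n * (nfix A σ : ℝ) := by
        rw [one_div, ← div_eq_inv_mul, le_div_iff₀ (by linarith), one_mul]
        exact_mod_cast h2
      have h4 : (0 : ℝ) ≤ n ^ 3 * ((nfix A σ : ℝ) / ((nfix A σ : ℝ) + 1) ^ 3) := by positivity
      linarith
    · push Not at h2
      have h5 : (nfix A σ : ℝ) + 1 ≤ n := by exact_mod_cast h2
      have h6 : (1 : ℝ) ≤ (nfix A σ : ℝ) := by exact_mod_cast h0
      have h7 : (1 : ℝ) ≤ n ^ 3 * ((nfix A σ : ℝ) / ((nfix A σ : ℝ) + 1) ^ 3) := by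
        rw [← mul_div_assoc, le_div_iff₀ (by positivity), one_mul]
        calc ((nfix A σ : ℝ) + 1) ^ 3 ≤ (n : ℝ) ^ 3 := by gcongr
          _ ≤ n ^ 3 * (nfix A σ : ℝ) := by
            nlinarith [pow_pos (by linarith : (0 : ℝ) < n) 3]
      have h8 : (0 : ℝ) ≤ 1 / n * (nfix A σ : ℝ) := by positivity
      linarith
  · positivity

variable {A s L}
variable (hs : ∀ m < L, ∀ w ∈ A m, s w ^ 2 = 1 + w) (hs0 : ∀ m < L, ∀ w ∈ A m, s w ≠ 0)
  (hB : ∀ m < L, ∀ v, v ∈ A (m + 1) ↔ v ^ 2 - 1 ∈ A m)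
  (hD : ∀ m < L, ∀ w ∈ A m, ∃ h : G, (∀ a ∈ A m, h • a = a) ∧ h • s w = - s w)
  (hP : ∀ m < L, ∀ w ∈ A m, ∀ w' ∈ A m, w ≠ w' →
    ∃ h : G, (∀ a ∈ A m, h • a = a) ∧ h • (s w * s w') = - (s w * s w'))
include hs hs0 hB hD

theorem sum_nfix_le (hA0 : (A 0).card ≤ 1) (m : ℕ) (hm : m ≤ L) :
    ∑ σ : G, (nfix (A m) σ : ℝ) ≤ Fintype.card G := by
  classical
  induction m with
  | zero =>
    have : ∀ σ : G, (nfix (A 0) σ : ℝ) ≤ 1 := by
      intro σ
      have : nfix (A 0) σ ≤ 1 := by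
        unfold nfix
        refine le_trans (Finset.card_le_card ?_) hA0
        intro x hx
        simp only [Finset.mem_filter] at hx
        exact hx.1
      exact_mod_cast this
    calc ∑ σ : G, (nfix (A 0) σ : ℝ) ≤ ∑ σ : G, (1 : ℝ) := Finset.sum_le_sum (fun σ _ => this σ)
      _ = Fintype.card G := by simp
  | succ m ih =>
    rw [sum_nfix_eq (hs m hm) (hs0 m hm) (hB m hm) (hD m hm)]
    exact ih (by omega)

theorem nfp_anti (m : ℕ) (hm : m < L) : nfp G (A (m + 1)) ≤ nfp G (A m) := by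
  classical
  unfold nfp
  apply Finset.card_le_card
  intro σ
  simp only [Finset.mem_filter, Finset.mem_univ, true_and]
  rintro ⟨v, hv, hσ⟩
  exact ⟨v ^ 2 - 1, (hB m hm v).mp hv, by rw [smul_sub, smul_pow', hσ, smul_one]⟩

theorem nfp_anti' (m : ℕ) (hm : m ≤ L) : nfp G (A L) ≤ nfp G (A m) := by
  induction hk : L - m generalizing m with
  | zero =>
    have : m = L := by omega
    rw [this]
  | succ k ih =>
    exact (ih (m + 1) (by omega) (by omega)).trans (nfp_anti hs hs0 hB hD m (by omega))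

include hP in
theorem telescope (m : ℕ) (hm : m ≤ L) :
    ∑ j ∈ Finset.range m, ∑ σ : G, (nfix (A j) σ : ℝ) / (2 * ((nfix (A j) σ : ℝ) + 1) ^ 3)
      ≤ ∑ σ : G, 1 / ((nfix (A m) σ : ℝ) + 1) := by
  induction m with
  | zero =>
    simp only [Finset.range_zero, Finset.sum_empty]
    positivity
  | succ m ih =>
    rw [Finset.sum_range_succ]
    have h1 := one_step (hs m hm) (hs0 m hm) (hB m hm) (hD m hm) (hP m hm)
    rw [Finset.sum_add_distrib] at h1
    have := ih (by omega)
    linarith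

include hP in
theorem iterate_bound (hA0 : (A 0).card ≤ 1) (n : ℕ) (hn : 1 ≤ n) (hL : n ^ 4 ≤ L) :
    (nfp G (A L) : ℝ) ≤ 3 / n * Fintype.card G := by
  classical
  set N : ℝ := (Fintype.card G : ℝ) with hN
  have hN0 : 0 ≤ N := by positivity
  have hn' : (1 : ℝ) ≤ n := by exact_mod_cast hn
  have hL' : ((n : ℝ)) ^ 4 ≤ L := by exact_mod_cast hL
  have hL0 : (0 : ℝ) < L := by
    have : (0 : ℝ) < (n : ℝ) ^ 4 := by positivity
    linarith
  have h1 := telescope hs hs0 hB hD hP L le_rfl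
  have h2 : ∑ σ : G, 1 / ((nfix (A L) σ : ℝ) + 1) ≤ N := by
    calc ∑ σ : G, 1 / ((nfix (A L) σ : ℝ) + 1) ≤ ∑ σ : G, (1 : ℝ) := by
          apply Finset.sum_le_sum
          intro σ _
          rw [div_le_one (by positivity)]
          have : (0 : ℝ) ≤ nfix (A L) σ := by positivity
          linarith
      _ = N := by simp [hN]
  have h3 : ∀ j ∈ Finset.range L, (nfp G (A L) : ℝ) ≤
      2 * n ^ 3 * ∑ σ : G, (nfix (A j) σ : ℝ) / (2 * ((nfix (A j) σ : ℝ) + 1) ^ 3) + N / n := by
    intro j hj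
    rw [Finset.mem_range] at hj
    have h4 : (nfp G (A L) : ℝ) ≤ nfp G (A j) := by
      exact_mod_cast nfp_anti' hs hs0 hB hD j hj.le
    have h5 := nfp_le (G := G) (A j) n hn
    have h6 := sum_nfix_le hs hs0 hB hD hA0 j hj.le
    have h7 : (n : ℝ) ^ 3 * ∑ σ : G, (nfix (A j) σ : ℝ) / ((nfix (A j) σ : ℝ) + 1) ^ 3 =
        2 * n ^ 3 * ∑ σ : G, (nfix (A j) σ : ℝ) / (2 * ((nfix (A j) σ : ℝ) + 1) ^ 3) := by
      rw [Finset.mul_sum, Finset.mul_sum]
      apply Finset.sum_congr rfl
      intro σ _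
      field_simp
    have h8 : (1 : ℝ) / n * ∑ σ : G, (nfix (A j) σ : ℝ) ≤ N / n := by
      rw [one_div, ← div_eq_inv_mul]
      gcongr
    linarith
  have h9 := Finset.sum_le_sum h3
  rw [Finset.sum_const, Finset.card_range, nsmul_eq_mul, Finset.sum_add_distrib,
    ← Finset.mul_sum, Finset.sum_const, Finset.card_range, nsmul_eq_mul] at h9
  have h10 : (L : ℝ) * (nfp G (A L) : ℝ) ≤ 2 * n ^ 3 * N + L * (N / n) := by
    have : (2 : ℝ) * n ^ 3 * ∑ j ∈ Finset.range L, ∑ σ : G,
        (nfix (A j) σ : ℝ) / (2 * ((nfix (A j) σ : ℝ) + 1) ^ 3) ≤ 2 * n ^ 3 * N := by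
      gcongr
      exact h1.trans h2
    linarith
  have h11 : (2 : ℝ) * n ^ 3 * N ≤ L * (2 * N / n) := by
    have : (2 : ℝ) * n ^ 3 * N = n ^ 4 * (2 * N / n) := by field_simp
    rw [this]
    gcongr
  have h12 : (L : ℝ) * (nfp G (A L) : ℝ) ≤ L * (3 / n * N) := by
    have : (L : ℝ) * (3 / n * N) = L * (2 * N / n) + L * (N / n) := by ring
    linarith
  exact le_of_mul_le_mul_left h12 hL0

end iterate

end Pool.Agent.Helper50.Basilica
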