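import Mathlib

set_option autoImplicit false

open Polynomial

namespace Pool.Agent.Helper50.Basilica

/-- The iterates of `f = X ^ 2 - 1`: `fIter 0 = X` and `fIter (m + 1) = (fIter m) ∘ (X ^ 2 - 1)`,
so `fIter m` is the `m`-fold composition of `X ^ 2 - 1`, a polynomial of degree `2 ^ m`. -/
noncomputable def fIter : ℕ → ℚ[X]
  | 0 => X
  | m + 1 => (fIter m).comp (X ^ 2 - 1)

/-- `δ_m`: the proportion of elements `σ` of `G_m`, the Galois group over `ℚ` of the polynomial
`f^m(x) - 1` (Mathlib's `Polynomial.Gal`, the automorphism group of its splitting field), such that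
`σ` fixes at least one of the roots of `f^m(x) - 1` in its splitting field. -/
noncomputable def delta (m : ℕ) : ℝ :=
  (Nat.card {σ : (fIter m - 1).Gal //
      ∃ β ∈ (fIter m - 1).rootSet (fIter m - 1).SplittingField, σ β = β} : ℝ) /
    (Nat.card (fIter m - 1).Gal : ℝ)

end Pool.Agent.Helper50.Basilica
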