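import Mathlib

set_option autoImplicit false
set_option linter.unusedSectionVars false

namespace Pool.Agent.Helper50.Basilica

variable {Ω : Type*} [Field Ω] [Algebra ℚ Ω]

/-- Level `m` of the tree of iterated preimages of `b` under `x ↦ x ^ 2 - 1`. -/
def T (b : Ω) (m : ℕ) : Set Ω := {w | (fun x : Ω => x ^ 2 - 1)^[m] w = b}

theorem mem_T_zero {b w : Ω} : w ∈ T b 0 ↔ w = b := Iff.rfl

theorem mem_T_succ {b w : Ω} {m : ℕ} : w ∈ T b (m + 1) ↔ w ^ 2 - 1 ∈ T b m := Iff.rfl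

/-- `h` fixes `I`, `b` and the level `m` of the tree above `b` pointwise. -/
def Fx (I b : Ω) (m : ℕ) (h : Ω ≃ₐ[ℚ] Ω) : Prop := h I = I ∧ h b = b ∧ ∀ w ∈ T b m, h w = w

theorem sq_eq {x y : Ω} (h : x ^ 2 = y ^ 2) : x = y ∨ x = -y := sq_eq_sq_iff_eq_or_eq_neg.mp h

theorem T_stable {b : Ω} {m : ℕ} {g : Ω ≃ₐ[ℚ] Ω} (hg : g b = b) {w : Ω} (hw : w ∈ T b m) :
    g w ∈ T b m := by
  induction m generalizing w with
  | zero =>
    rw [mem_T_zero] at *
    rw [hw, hg]
  | succ m ih =>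
    rw [mem_T_succ] at *
    have := ih hw
    simpa using this

theorem inv_fix {g : Ω ≃ₐ[ℚ] Ω} {x : Ω} (h : g x = x) : g⁻¹ x = x := by
  conv_lhs => rw [← h]
  simp [AlgEquiv.aut_inv]

theorem inv_neg' {g : Ω ≃ₐ[ℚ] Ω} {x : Ω} (h : g x = -x) : g⁻¹ x = -x := by
  have h1 : x = g (-x) := by rw [map_neg, h, neg_neg]
  conv_lhs => rw [h1]
  simp [AlgEquiv.aut_inv]

theorem inv_apply_self' (g : Ω ≃ₐ[ℚ] Ω) (x : Ω) : g (g⁻¹ x) = x := by
  simp [AlgEquiv.aut_inv]

theorem Fx.mul {I b : Ω} {m : ℕ} {g h : Ω ≃ₐ[ℚ] Ω} (hg : Fx I b m g) (hh : Fx I b m h) :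
    Fx I b m (g * h) := by
  refine ⟨?_, ?_, ?_⟩
  · rw [AlgEquiv.mul_apply, hh.1, hg.1]
  · rw [AlgEquiv.mul_apply, hh.2.1, hg.2.1]
  · intro w hw
    rw [AlgEquiv.mul_apply, hh.2.2 w hw, hg.2.2 w hw]

theorem Fx.inv {I b : Ω} {m : ℕ} {g : Ω ≃ₐ[ℚ] Ω} (hg : Fx I b m g) :
    Fx I b m g⁻¹ :=
  ⟨inv_fix hg.1, inv_fix hg.2.1, fun w hw => inv_fix (hg.2.2 w hw)⟩

theorem Fx.conj {I b : Ω} {m : ℕ} {g h : Ω ≃ₐ[ℚ] Ω} (hI : g I = I) (hb : g b = b)
    (hh : Fx I b m h) : Fx I b m (g * h * g⁻¹) := by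
  refine ⟨?_, ?_, ?_⟩
  · rw [AlgEquiv.mul_apply, AlgEquiv.mul_apply, inv_fix hI, hh.1, hI]
  · rw [AlgEquiv.mul_apply, AlgEquiv.mul_apply, inv_fix hb, hh.2.1, hb]
  · intro w hw
    rw [AlgEquiv.mul_apply, AlgEquiv.mul_apply, hh.2.2 _ (T_stable (inv_fix hb) hw)]
    rw [← AlgEquiv.mul_apply, mul_inv_cancel, AlgEquiv.one_apply]

theorem aut_two (g : Ω ≃ₐ[ℚ] Ω) : g 2 = 2 := map_ofNat g 2

theorem aut_neg_one (g : Ω ≃ₐ[ℚ] Ω) : g (-1) = -1 := by rw [map_neg, map_one]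

theorem exists_sqrt [IsAlgClosed Ω] (x : Ω) : ∃ v : Ω, v ^ 2 = x :=
  IsAlgClosed.exists_pow_nat_eq x (by norm_num)

theorem Fx.mono [IsAlgClosed Ω] {I b : Ω} {m : ℕ} {h : Ω ≃ₐ[ℚ] Ω} (hh : Fx I b (m + 1) h) :
    Fx I b m h := by
  refine ⟨hh.1, hh.2.1, fun w hw => ?_⟩
  obtain ⟨v, hv⟩ := exists_sqrt (1 + w)
  have hvT : v ∈ T b (m + 1) := by
    rw [mem_T_succ, hv]
    simpa using hw
  have h1 := hh.2.2 v hvT
  have h2 : h (v ^ 2 - 1) = v ^ 2 - 1 := by simp [h1]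
  have h3 : v ^ 2 - 1 = w := by rw [hv]; ring
  rwa [h3] at h2

theorem iter_neg_one (j : ℕ) : (fun x : Ω => x ^ 2 - 1)^[j] (-1) = -1 ∨
    (fun x : Ω => x ^ 2 - 1)^[j] (-1) = 0 := by
  induction j with
  | zero => left; rfl
  | succ j ih =>
    rw [Function.iterate_succ_apply']
    rcases ih with h | h
    · right; simp [h]
    · left; simp [h]

theorem one_add_ne [CharZero Ω] {b : Ω} (hb : b ^ 2 = 2) {m : ℕ} {w : Ω} (hw : w ∈ T b m) :
    1 + w ≠ 0 := by
  intro h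
  have hw1 : w = -1 := by linear_combination h
  subst hw1
  have hw2 : (fun x : Ω => x ^ 2 - 1)^[m] (-1) = b := hw
  rcases iter_neg_one (Ω := Ω) m with h1 | h1
  · rw [h1] at hw2
    rw [← hw2] at hb
    norm_num at hb
  · rw [h1] at hw2
    rw [← hw2] at hb
    norm_num at hb

/-- (C): the level-`m` stabiliser negates a square root of `-p`, `p` on level `m - 1`. -/
def PC (I b : Ω) (m : ℕ) : Prop :=
  ∀ p ∈ T b m, ∀ r : Ω, r ^ 2 = -p → ∃ h : Ω ≃ₐ[ℚ] Ω, Fx I b (m + 1) h ∧ h r = -r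

/-- (D): the level-`m` stabiliser negates a square root of `1 + w`, `w` on level `m`. -/
def PD (I b : Ω) (m : ℕ) : Prop :=
  ∀ w ∈ T b m, ∀ v : Ω, v ^ 2 = 1 + w → ∃ h : Ω ≃ₐ[ℚ] Ω, Fx I b m h ∧ h v = -v

/-- (S): there is an element of the level-`m` stabiliser which negates a square root of `1 + w`
but fixes the square roots of all `-q`, `q` on level `m`. -/
def PS (I b : Ω) (m : ℕ) : Prop :=
  ∀ w ∈ T b m, ∀ v : Ω, v ^ 2 = 1 + w → ∃ h : Ω ≃ₐ[ℚ] Ω, Fx I b m h ∧ h v = -v ∧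
    ∀ q ∈ T b m, ∀ ρ : Ω, ρ ^ 2 = -q → h ρ = ρ

/-- (P): pairwise independence. -/
def PP (I b : Ω) (m : ℕ) : Prop :=
  ∀ w ∈ T b m, ∀ w' ∈ T b m, w ≠ w' → ∀ v v' : Ω, v ^ 2 = 1 + w → v' ^ 2 = 1 + w' →
    ∃ h : Ω ≃ₐ[ℚ] Ω, Fx I b m h ∧ h (v * v') = -(v * v')

section
variable [IsAlgClosed Ω] [CharZero Ω] {I b : Ω} (hI : I ^ 2 = -1) (hb : b ^ 2 = 2)
include hI hb

/-- commutation of `g` in the level `j` stabiliser and `h` in the level `j+1` stabiliser on
square roots of `-q`, `q` on level `j + 1`. -/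
theorem comm_aux {j : ℕ} {g h : Ω ≃ₐ[ℚ] Ω} (hg : Fx I b j g) (hh : Fx I b (j + 1) h) {q ρ : Ω}
    (hq : q ∈ T b (j + 1)) (hρ : ρ ^ 2 = -q) : g (h ρ) = h (g ρ) := by
  have hhq : h q = q := hh.2.2 q hq
  have h1 : (h ρ) ^ 2 = ρ ^ 2 := by rw [← map_pow, hρ, map_neg, hhq]
  have hgp : g (q ^ 2 - 1) = q ^ 2 - 1 := hg.2.2 _ hq
  have hgq : (g q) ^ 2 = q ^ 2 := by
    have : g (q ^ 2 - 1) = (g q) ^ 2 - 1 := by simp
    rw [this] at hgp
    linear_combination hgp
  have key : ∃ c : Ω, (h c = c) ∧ g ρ = c * ρ := by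
    rcases sq_eq hgq with h2 | h2
    · have : (g ρ) ^ 2 = ρ ^ 2 := by rw [← map_pow, hρ, map_neg, h2]
      rcases sq_eq this with h3 | h3
      · exact ⟨1, by simp, by simp [h3]⟩
      · exact ⟨-1, by simp, by simp [h3]⟩
    · have : (g ρ) ^ 2 = (I * ρ) ^ 2 := by
        rw [← map_pow, hρ, map_neg, h2, mul_pow, hI, hρ]; ring
      rcases sq_eq this with h3 | h3
      · exact ⟨I, hh.1, h3⟩
      · exact ⟨-I, by simp [hh.1], by rw [h3]; ring⟩
  obtain ⟨c, hc, hgρ⟩ := key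
  rcases sq_eq h1 with h2 | h2
  · rw [h2, hgρ, map_mul, hc, h2]
  · rw [h2, map_neg, hgρ, map_mul, hc, h2]; ring

theorem PS_of (j : ℕ) (hC : PC I b j) (hD : PD I b j) : PS I b (j + 1) := by
  intro w hw v hv
  obtain ⟨v', hv'⟩ := exists_sqrt (1 - w)
  have hp : w ^ 2 - 1 ∈ T b j := hw
  obtain ⟨h, hh, hr⟩ := hC _ hp (v * v') (by rw [mul_pow, hv, hv']; ring)
  obtain ⟨g, hg, hgw⟩ := hD _ hp w (by ring)
  have hg' := hg.inv
  have hh' := hh.inv
  -- σ = g h g⁻¹ h⁻¹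
  have hconj : Fx I b (j + 1) (g * h * g⁻¹) := Fx.conj hg.1 hg.2.1 hh
  have hσ : Fx I b (j + 1) (g * h * g⁻¹ * h⁻¹) := hconj.mul hh'
  refine ⟨g * h * g⁻¹ * h⁻¹, hσ, ?_, ?_⟩
  · have hhw : h w = w := hh.2.2 w hw
    have e1 : (h v) ^ 2 = v ^ 2 := by rw [← map_pow, hv, map_add, map_one, hhw]
    have e2 : (h v') ^ 2 = v' ^ 2 := by rw [← map_pow, hv', map_sub, map_one, hhw]
    have e3 : (g⁻¹ v) ^ 2 = v' ^ 2 := by
      rw [← map_pow, hv, map_add, map_one, inv_neg' hgw, hv']; ring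
    have hv0 : v ≠ 0 := by
      intro h0
      rw [h0] at hv
      exact one_add_ne hb hw (by rw [← hv]; ring)
    have hv0' : v' ≠ 0 := by
      intro h0
      rw [h0] at hv'
      have hnw : -w ∈ T b (j + 1) := by
        rw [mem_T_succ]; simpa using hp
      exact one_add_ne hb hnw (by linear_combination -hv')
    have e4 : g (g⁻¹ v) = v := inv_apply_self' g v
    simp only [AlgEquiv.mul_apply]
    rw [map_mul] at hr
    rcases sq_eq e1 with h1 | h1
    · have h1' : h⁻¹ v = v := inv_fix h1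
      have h2 : h v' = -v' := by
        rw [h1] at hr
        have : v * (h v' + v') = 0 := by linear_combination hr
        rcases mul_eq_zero.mp this with h3 | h3
        · exact absurd h3 hv0
        · linear_combination h3
      rw [h1']
      rcases sq_eq e3 with h3 | h3
      · rw [h3, h2, map_neg, ← h3, e4]
      · rw [h3, map_neg, h2, neg_neg]
        have : g v' = -v := by
          rw [h3, map_neg] at e4; linear_combination -e4
        rw [this]
    · have h1' : h⁻¹ v = -v := inv_neg' h1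
      have h2 : h v' = v' := by
        rw [h1] at hr
        have : v * (h v' - v') = 0 := by linear_combination -hr
        rcases mul_eq_zero.mp this with h3 | h3
        · exact absurd h3 hv0
        · linear_combination h3
      rw [h1', map_neg, map_neg, map_neg]
      rcases sq_eq e3 with h3 | h3
      · rw [h3, h2, ← h3, e4]
      · rw [h3, map_neg, h2, ← h3, e4]
  · intro q hq ρ hρ
    simp only [AlgEquiv.mul_apply]
    have c1 := comm_aux hI hb hg' hh' hq hρ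
    rw [c1, inv_apply_self', inv_apply_self']

theorem PC_of (j : ℕ) (hS : PS I b j) : PC I b (j + 1) := by
  intro v hv r hr
  have hw : v ^ 2 - 1 ∈ T b j := hv
  obtain ⟨σ, hσ, hσv, hσρ⟩ := hS _ hw v (by ring)
  refine ⟨σ * σ, ⟨?_, ?_, ?_⟩, ?_⟩
  · rw [AlgEquiv.mul_apply, hσ.1, hσ.1]
  · rw [AlgEquiv.mul_apply, hσ.2.1, hσ.2.1]
  · intro z hz
    rw [AlgEquiv.mul_apply]
    set y := z ^ 2 - 1 with hy
    have hyT : y ∈ T b (j + 1) := hz
    have hq : y ^ 2 - 1 ∈ T b j := hyT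
    have hσq : σ (y ^ 2 - 1) = y ^ 2 - 1 := hσ.2.2 _ hq
    have hσy : (σ y) ^ 2 = y ^ 2 := by
      have : σ (y ^ 2 - 1) = (σ y) ^ 2 - 1 := by simp
      rw [this] at hσq
      linear_combination hσq
    have hz2 : z ^ 2 = 1 + y := by rw [hy]; ring
    rcases sq_eq hσy with h1 | h1
    · have : (σ z) ^ 2 = z ^ 2 := by rw [← map_pow, hz2, map_add, map_one, h1]
      rcases sq_eq this with h2 | h2
      · rw [h2, h2]
      · rw [h2, map_neg, h2, neg_neg]
    · obtain ⟨z', hz'⟩ := exists_sqrt (1 - y)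
      have e1 : σ (z * z') = z * z' := hσρ _ hq _ (by rw [mul_pow, hz2, hz']; ring)
      have e2 : (σ z) ^ 2 = z' ^ 2 := by rw [← map_pow, hz2, map_add, map_one, h1, hz']; ring
      have e3 : (σ z') ^ 2 = z ^ 2 := by rw [← map_pow, hz', map_sub, map_one, h1, hz2]; ring
      rw [map_mul] at e1
      have hzz : z ≠ 0 := by
        intro h0
        have : (1 : Ω) + y = 0 := by rw [← hz2, h0]; ring
        exact one_add_ne hb hyT this
      have hz0 : z' ≠ 0 := by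
        intro h0
        rw [h0] at e2
        have : σ z = 0 := by simpa using e2
        exact hzz (by simpa using this)
      rcases sq_eq e2 with h2 | h2
      · rw [h2] at e1 ⊢
        have : z' * (σ z' - z) = 0 := by linear_combination e1
        rcases mul_eq_zero.mp this with h3 | h3
        · exact absurd h3 hz0
        · linear_combination h3
      · rw [h2] at e1 ⊢
        rw [map_neg]
        have : z' * (σ z' + z) = 0 := by linear_combination -e1
        rcases mul_eq_zero.mp this with h3 | h3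
        · exact absurd h3 hz0
        · linear_combination -h3
  · rw [AlgEquiv.mul_apply]
    have e1 : (σ r) ^ 2 = (I * r) ^ 2 := by
      rw [← map_pow, hr, map_neg, hσv, mul_pow, hI, hr]; ring
    rcases sq_eq e1 with h2 | h2
    · rw [h2, map_mul, hσ.1, h2]; linear_combination r * hI
    · rw [h2, map_neg, map_mul, hσ.1, h2]; linear_combination r * hI

theorem PD_of (j : ℕ) (hC : PC I b j) (hD : PD I b j) : PD I b (j + 1) := by
  obtain hS := PS_of hI hb j hC hD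
  intro w hw v hv
  obtain ⟨h, h1, h2, _⟩ := hS w hw v hv
  exact ⟨h, h1, h2⟩

theorem PP_of (j : ℕ) (hC : PC I b j) (hD : PD I b j) (hP : PP I b j) : PP I b (j + 1) := by
  intro w hw w' hw' hne v v' hv hv'
  have hv0 : v ≠ 0 := by
    intro h0
    rw [h0] at hv
    exact one_add_ne hb hw (by rw [← hv]; ring)
  have hv0' : v' ≠ 0 := by
    intro h0
    rw [h0] at hv'
    exact one_add_ne hb hw' (by rw [← hv']; ring)
  by_cases hww : w ^ 2 = w' ^ 2
  · have hneg : w' = -w := by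
      rcases sq_eq hww with h1 | h1
      · exact absurd h1 hne
      · rw [h1]; ring
    obtain ⟨h, hh, hr⟩ := hC _ hw (v * v') (by rw [mul_pow, hv, hv', hneg]; ring)
    exact ⟨h, hh, hr⟩
  · -- find x with x w = -w, x w' = w'
    have hx : ∃ x : Ω ≃ₐ[ℚ] Ω, Fx I b j x ∧ x w = -w ∧ x w' = w' := by
      have hpne : w ^ 2 - 1 ≠ w' ^ 2 - 1 := fun h => hww (by linear_combination h)
      obtain ⟨x₁, hx₁, hx₁'⟩ := hP _ hw _ hw' hpne w w' (by ring) (by ring)
      obtain ⟨x₂, hx₂, hx₂'⟩ := hD _ hw w (by ring)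
      have a1 : (x₁ w) ^ 2 = w ^ 2 := by
        have := hx₁.2.2 _ hw
        have h2 : x₁ (w ^ 2 - 1) = (x₁ w) ^ 2 - 1 := by simp
        rw [h2] at this
        linear_combination this
      have a1' : (x₁ w') ^ 2 = w' ^ 2 := by
        have := hx₁.2.2 _ hw'
        have h2 : x₁ (w' ^ 2 - 1) = (x₁ w') ^ 2 - 1 := by simp
        rw [h2] at this
        linear_combination this
      have a2' : (x₂ w') ^ 2 = w' ^ 2 := by
        have := hx₂.2.2 _ hw'
        have h2 : x₂ (w' ^ 2 - 1) = (x₂ w') ^ 2 - 1 := by simp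
        rw [h2] at this
        linear_combination this
      by_cases hw0 : w' = 0
      · exact ⟨x₂, hx₂, hx₂', by rw [hw0, map_zero]⟩
      by_cases hw0' : w = 0
      · rw [hw0']
        refine ⟨1, ⟨rfl, rfl, fun _ _ => rfl⟩, by simp, rfl⟩
      rw [map_mul] at hx₁'
      rcases sq_eq a1 with h1 | h1
      · -- x₁ w = w so x₁ w' = -w'
        have h3 : x₁ w' = -w' := by
          rw [h1] at hx₁'
          have : w * (x₁ w' + w') = 0 := by linear_combination hx₁'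
          rcases mul_eq_zero.mp this with h3 | h3
          · exact absurd h3 hw0'
          · linear_combination h3
        rcases sq_eq a2' with h2 | h2
        · exact ⟨x₂, hx₂, hx₂', h2⟩
        · refine ⟨x₁ * x₂, hx₁.mul hx₂, ?_, ?_⟩
          · rw [AlgEquiv.mul_apply, hx₂', map_neg, h1]
          · rw [AlgEquiv.mul_apply, h2, map_neg, h3, neg_neg]
      · refine ⟨x₁, hx₁, h1, ?_⟩
        rw [h1] at hx₁'
        have : w * (x₁ w' - w') = 0 := by linear_combination -hx₁'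
        rcases mul_eq_zero.mp this with h3 | h3
        · exact absurd h3 hw0'
        · linear_combination h3
    obtain ⟨x, hx, hxw, hxw'⟩ := hx
    by_contra hcon
    push Not at hcon
    have hfix : ∀ h : Ω ≃ₐ[ℚ] Ω, Fx I b (j + 1) h → h (v * v') = v * v' := by
      intro h hh
      have e1 : (h (v * v')) ^ 2 = (v * v') ^ 2 := by
        rw [← map_pow, mul_pow, hv, hv', map_mul, map_add, map_add, map_one, hh.2.2 w hw,
          hh.2.2 w' hw']
      rcases sq_eq e1 with h1 | h1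
      · exact h1
      · exact absurd h1 (hcon h hh)
    have hfix2 : ∀ h : Ω ≃ₐ[ℚ] Ω, Fx I b (j + 1) h → h (x (v * v')) = x (v * v') := by
      intro h hh
      have hc : Fx I b (j + 1) (x⁻¹ * h * x⁻¹⁻¹) :=
        Fx.conj (inv_fix hx.1) (inv_fix hx.2.1) hh
      have := hfix _ hc
      rw [inv_inv, AlgEquiv.mul_apply, AlgEquiv.mul_apply] at this
      have h3 := congrArg x this
      rwa [inv_apply_self'] at h3
    have hxv' : (x v') ^ 2 = v' ^ 2 := by
      rw [← map_pow, hv', map_add, map_one, hxw']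
    have hxv : (x v) ^ 2 = 1 - w := by
      rw [← map_pow, hv, map_add, map_one, hxw]; ring
    obtain ⟨h, hh, hr⟩ := hC _ hw (v * x v) (by rw [mul_pow, hv, hxv]; ring)
    have f1 := hfix h hh
    have f2 := hfix2 h hh
    have f3 : h (v' ^ 2) = v' ^ 2 := by rw [hv', map_add, map_one, hh.2.2 w' hw']
    rw [map_mul] at hr f1
    rw [map_mul, map_mul] at f2
    rw [map_pow] at f3
    have f4 : (h v * h (x v)) * (h v' * h (x v')) = (v * x v) * (v' * x v') := by
      linear_combination (x v * x v') * f1 + (h v * h v') * f2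
    rw [hr] at f4
    have f5 : h v' * h (x v') = v' * x v' := by
      rcases sq_eq hxv' with h1 | h1
      · rw [h1]; linear_combination f3
      · rw [h1, map_neg]; linear_combination -f3
    rw [f5] at f4
    have hxv0 : x v ≠ 0 := by simpa using hv0
    have hxv0' : x v' ≠ 0 := by simpa using hv0'
    have f6 : (2 : Ω) * ((v * x v) * (v' * x v')) = 0 := by linear_combination -f4
    have : (2 : Ω) ≠ 0 := two_ne_zero
    simp_all

end

section base
variable [IsAlgClosed Ω] [CharZero Ω] {I b : Ω} (hI : I ^ 2 = -1) (hb : b ^ 2 = 2)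
  (hfix : ∀ x : Ω, (∀ h : Ω ≃ₐ[ℚ] Ω, h x = x) → ∃ q : ℚ, algebraMap ℚ Ω q = x)
include hI hb hfix

theorem exists_rho : ∃ ρ : Ω ≃ₐ[ℚ] Ω, ρ b = -b := by
  by_contra hcon
  push Not at hcon
  obtain ⟨q, hq⟩ := hfix b (fun h => by
    have : (h b) ^ 2 = b ^ 2 := by rw [← map_pow, hb, aut_two]
    rcases sq_eq this with h1 | h1
    · exact h1
    · exact absurd h1 (hcon h))
  rw [← hq, ← map_pow] at hb
  have h2 : q ^ 2 = 2 := by
    have : algebraMap ℚ Ω (q ^ 2) = algebraMap ℚ Ω 2 := by rw [hb]; simp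
    exact (algebraMap ℚ Ω).injective this
  have := irrational_sqrt_two
  apply this
  have h3 : ((|q| : ℚ) : ℝ) = Real.sqrt 2 := by
    rw [eq_comm, Real.sqrt_eq_iff_mul_self_eq (by norm_num) (by positivity)]
    have h4 : (|q|) * |q| = 2 := by rw [abs_mul_abs_self]; linarith
    exact_mod_cast h4.symm
  exact ⟨|q|, h3⟩

theorem exists_iota : ∃ ι : Ω ≃ₐ[ℚ] Ω, ι I = -I ∧ ι b = b := by
  by_contra hcon
  push Not at hcon
  have hhI : ∀ h : Ω ≃ₐ[ℚ] Ω, h I = I ∨ h I = -I := fun h => sq_eq (by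
    rw [← map_pow, hI, aut_neg_one])
  have hhb : ∀ h : Ω ≃ₐ[ℚ] Ω, h b = b ∨ h b = -b := fun h => sq_eq (by
    rw [← map_pow, hb, aut_two])
  have h1 : ∀ h : Ω ≃ₐ[ℚ] Ω, h b = b → h I = I := by
    intro h hb'
    rcases hhI h with h2 | h2
    · exact h2
    · exact absurd hb' (hcon h h2)
  obtain ⟨ρ, hρ⟩ := exists_rho hI hb hfix
  have key : ∀ h : Ω ≃ₐ[ℚ] Ω, h b = -b → h I = ρ I := by
    intro h hb'
    have : (ρ⁻¹ * h) b = b := by
      rw [AlgEquiv.mul_apply, hb', map_neg, inv_neg' hρ, neg_neg]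
    have h3 := h1 _ this
    rw [AlgEquiv.mul_apply] at h3
    have h4 := congrArg ρ h3
    rwa [inv_apply_self'] at h4
  rcases hhI ρ with h2 | h2
  · obtain ⟨q, hq⟩ := hfix I (fun h => by
      rcases hhb h with h3 | h3
      · exact h1 h h3
      · rw [key h h3, h2])
    rw [← hq, ← map_pow] at hI
    have h5 : q ^ 2 = -1 := by
      have : algebraMap ℚ Ω (q ^ 2) = algebraMap ℚ Ω (-1) := by rw [hI]; simp
      exact (algebraMap ℚ Ω).injective this
    nlinarith [sq_nonneg q]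
  · obtain ⟨q, hq⟩ := hfix (I * b) (fun h => by
      rcases hhb h with h3 | h3
      · rw [map_mul, h3, h1 h h3]
      · rw [map_mul, h3, key h h3, h2]; ring)
    have h6 : (I * b) ^ 2 = -2 := by rw [mul_pow, hI, hb]; ring
    rw [← hq, ← map_pow] at h6
    have h5 : q ^ 2 = -2 := by
      have : algebraMap ℚ Ω (q ^ 2) = algebraMap ℚ Ω (-2) := by rw [h6]; simp
      exact (algebraMap ℚ Ω).injective this
    nlinarith [sq_nonneg q]

/-- The two elements with prescribed signs on `v = √(1+b)` and `r = √(-b)`. -/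
theorem base_elements {v r : Ω} (hv : v ^ 2 = 1 + b) (hr : r ^ 2 = -b) :
    (∃ σ : Ω ≃ₐ[ℚ] Ω, σ I = I ∧ σ b = b ∧ σ v = -v ∧ σ r = r) ∧
    (∃ σ : Ω ≃ₐ[ℚ] Ω, σ I = I ∧ σ b = b ∧ σ v = v ∧ σ r = -r) := by
  obtain ⟨ρ, hρ⟩ := exists_rho hI hb hfix
  obtain ⟨ι, hιI, hιb⟩ := exists_iota hI hb hfix
  have hI0 : I ≠ 0 := by rintro rfl; norm_num at hI
  have hb0 : b ≠ 0 := by rintro rfl; norm_num at hb
  have hr0 : r ≠ 0 := by
    rintro rfl
    apply hb0
    have : (0 : Ω) = -b := by rw [← hr]; ring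
    linear_combination this
  have hv0 : v ≠ 0 := by
    rintro rfl
    have h1 : b = -1 := by
      have : (0 : Ω) = 1 + b := by rw [← hv]; ring
      linear_combination -this
    rw [h1] at hb; norm_num at hb
  have hρI : ρ I = I ∨ ρ I = -I := sq_eq (by rw [← map_pow, hI, aut_neg_one])
  -- ρ² negates s = v r
  set s := v * r with hs
  have hs2 : s ^ 2 = -(2 + b) := by rw [hs, mul_pow, hv, hr]; linear_combination -hb
  have hs0 : s ≠ 0 := mul_ne_zero hv0 hr0
  have hρs : (ρ s) ^ 2 = (b / s) ^ 2 := by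
    rw [div_pow, hs2, hb, eq_div_iff (by rw [← hs2]; exact pow_ne_zero 2 hs0), ← map_pow, hs2,
      map_neg, map_add, hρ]
    rw [aut_two]
    linear_combination -hb
  have hρρs : ρ (ρ s) = -s := by
    rcases sq_eq hρs with h1 | h1
    · rw [h1, map_div₀, hρ, h1]; field_simp
    · rw [h1, map_neg, map_div₀, hρ, h1]; field_simp
  have hρρb : ρ (ρ b) = b := by rw [hρ, map_neg, hρ, neg_neg]
  have hρρI : ρ (ρ I) = I := by
    rcases hρI with h1 | h1
    · rw [h1, h1]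
    · rw [h1, map_neg, h1, neg_neg]
  -- the commutator κ
  have comm1 : ∀ y : Ω, (y ^ 2 = b ∨ y ^ 2 = -b) → ρ (ι y) = -ι (ρ y) := by
    intro y hy
    have e1 : (ι y) ^ 2 = y ^ 2 := by
      rcases hy with hy | hy
      · rw [← map_pow, hy, hιb]
      · rw [← map_pow, hy, map_neg, hιb]
    have e2 : (ρ y) ^ 2 = (I * y) ^ 2 := by
      rcases hy with hy | hy
      · rw [← map_pow, mul_pow, hI, hy, hρ]; ring
      · rw [← map_pow, mul_pow, hI, hy, map_neg, hρ]; ring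
    rcases sq_eq e1 with h1 | h1 <;> rcases sq_eq e2 with h2 | h2
    · rw [h1, h2, map_mul, hιI, h1]; ring
    · rw [h1, h2, map_neg, map_mul, hιI, h1]; ring
    · rw [h1, h2, map_neg, h2, map_mul, hιI, h1]; ring
    · rw [h1, map_neg, h2, map_neg, map_mul, hιI, h1]; ring
  have comm2 : ∀ y : Ω, (y ^ 2 = -(2 + b) ∨ y ^ 2 = -(2 - b)) → ρ (ι y) = ι (ρ y) := by
    intro y hy
    have hι2 : ι 2 = 2 := aut_two ι
    have hρ2 : ρ 2 = 2 := aut_two ρ
    have hy0 : y ≠ 0 := by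
      rintro rfl
      have h4 : b ^ 2 = 4 := by
        rcases hy with hy | hy
        · have : b = -2 := by linear_combination hy
          rw [this]; norm_num
        · have : b = 2 := by linear_combination -hy
          rw [this]; norm_num
      rw [hb] at h4; norm_num at h4
    have e1 : (ι y) ^ 2 = y ^ 2 := by
      rcases hy with hy | hy
      · rw [← map_pow, hy, map_neg, map_add, hιb, hι2]
      · rw [← map_pow, hy, map_neg, map_sub, hιb, hι2]
    have e2 : (ρ y) ^ 2 = (b / y) ^ 2 := by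
      rw [div_pow, eq_div_iff (pow_ne_zero 2 hy0)]
      rcases hy with hy | hy
      · rw [← map_pow, hy, map_neg, map_add, hρ, hρ2]; linear_combination -2 * hb
      · rw [← map_pow, hy, map_neg, map_sub, hρ, hρ2]; linear_combination -2 * hb
    rcases sq_eq e1 with h1 | h1 <;> rcases sq_eq e2 with h2 | h2
    · rw [h1, h2, map_div₀, hιb, h1]
    · rw [h1, h2, map_neg, map_div₀, hιb, h1]
    · rw [h1, map_neg, h2, map_div₀, hιb, h1, div_neg]
    · rw [h1, map_neg, h2, map_neg, map_div₀, hιb, h1, div_neg]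
  set κ := ρ * ι * ρ⁻¹ * ι⁻¹ with hκ
  have hκb : κ b = b := by
    rw [hκ]; simp only [AlgEquiv.mul_apply]
    rw [inv_fix hιb, inv_neg' hρ, map_neg, hιb, map_neg, hρ, neg_neg]
  have hκI : κ I = I := by
    rw [hκ]; simp only [AlgEquiv.mul_apply]
    rcases hρI with h1 | h1
    · rw [inv_neg' hιI, map_neg, inv_fix h1, map_neg, hιI, neg_neg, h1]
    · rw [inv_neg' hιI, map_neg, inv_neg' h1, neg_neg, hιI, map_neg, h1, neg_neg]
  have hκr : κ r = -r := by
    rw [hκ]; simp only [AlgEquiv.mul_apply]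
    have hy : (ρ⁻¹ (ι⁻¹ r)) ^ 2 = b ∨ (ρ⁻¹ (ι⁻¹ r)) ^ 2 = -b := by
      left
      rw [← map_pow, ← map_pow, hr, map_neg, map_neg, inv_fix hιb, inv_neg' hρ, neg_neg]
    rw [comm1 _ hy, inv_apply_self', inv_apply_self']
  have hκs : κ s = s := by
    rw [hκ]; simp only [AlgEquiv.mul_apply]
    have hy : (ρ⁻¹ (ι⁻¹ s)) ^ 2 = -(2 + b) ∨ (ρ⁻¹ (ι⁻¹ s)) ^ 2 = -(2 - b) := by
      right
      have h1 : ρ⁻¹ 2 = 2 := aut_two _
      have h2 : ι⁻¹ 2 = 2 := aut_two _
      rw [← map_pow, ← map_pow, hs2, map_neg, map_add, map_neg, map_add, h2, inv_fix hιb, h1,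
        inv_neg' hρ]
      ring
    rw [comm2 _ hy, inv_apply_self', inv_apply_self']
  have hκv : κ v = -v := by
    rw [hs, map_mul, hκr] at hκs
    have : r * (κ v + v) = 0 := by linear_combination -hκs
    rcases mul_eq_zero.mp this with h3 | h3
    · exact absurd h3 hr0
    · linear_combination h3
  -- case analysis on ρ²
  have hρρr : (ρ (ρ r)) ^ 2 = r ^ 2 := by
    rw [← map_pow, ← map_pow, hr, map_neg, map_neg, hρρb]
  have hρρs' : ρ (ρ v) * ρ (ρ r) = -(v * r) := by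
    rw [← map_mul, ← map_mul]; exact hρρs
  rcases sq_eq hρρr with h1 | h1
  · have h2 : ρ (ρ v) = -v := by
      rw [h1] at hρρs'
      have : r * (ρ (ρ v) + v) = 0 := by linear_combination hρρs'
      rcases mul_eq_zero.mp this with h3 | h3
      · exact absurd h3 hr0
      · linear_combination h3
    refine ⟨⟨ρ * ρ, ?_, ?_, ?_, ?_⟩, ⟨κ * (ρ * ρ), ?_, ?_, ?_, ?_⟩⟩
    · rw [AlgEquiv.mul_apply, hρρI]
    · rw [AlgEquiv.mul_apply, hρρb]
    · rw [AlgEquiv.mul_apply, h2]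
    · rw [AlgEquiv.mul_apply, h1]
    · change κ (ρ (ρ I)) = I; rw [hρρI, hκI]
    · change κ (ρ (ρ b)) = b; rw [hρρb, hκb]
    · change κ (ρ (ρ v)) = v; rw [h2, map_neg, hκv, neg_neg]
    · change κ (ρ (ρ r)) = -r; rw [h1, hκr]
  · have h2 : ρ (ρ v) = v := by
      rw [h1] at hρρs'
      have : r * (ρ (ρ v) - v) = 0 := by linear_combination -hρρs'
      rcases mul_eq_zero.mp this with h3 | h3
      · exact absurd h3 hr0
      · linear_combination h3
    refine ⟨⟨κ * (ρ * ρ), ?_, ?_, ?_, ?_⟩, ⟨ρ * ρ, ?_, ?_, ?_, ?_⟩⟩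
    · change κ (ρ (ρ I)) = I; rw [hρρI, hκI]
    · change κ (ρ (ρ b)) = b; rw [hρρb, hκb]
    · change κ (ρ (ρ v)) = -v; rw [h2, hκv]
    · change κ (ρ (ρ r)) = r; rw [h1, map_neg, hκr, neg_neg]
    · rw [AlgEquiv.mul_apply, hρρI]
    · rw [AlgEquiv.mul_apply, hρρb]
    · rw [AlgEquiv.mul_apply, h2]
    · rw [AlgEquiv.mul_apply, h1]

theorem PD_zero : PD I b 0 := by
  intro w hw v hv
  rw [mem_T_zero] at hw
  subst hw
  obtain ⟨r, hr⟩ := exists_sqrt (-w)
  obtain ⟨⟨σ, h1, h2, h3, _⟩, _⟩ := base_elements hI hb hfix hv hr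
  refine ⟨σ, ⟨h1, h2, fun x hx => ?_⟩, h3⟩
  rw [mem_T_zero] at hx
  rw [hx, h2]

theorem PS_zero : PS I b 0 := by
  intro w hw v hv
  rw [mem_T_zero] at hw
  subst hw
  obtain ⟨r, hr⟩ := exists_sqrt (-w)
  obtain ⟨⟨σ, h1, h2, h3, h4⟩, _⟩ := base_elements hI hb hfix hv hr
  refine ⟨σ, ⟨h1, h2, fun x hx => ?_⟩, h3, ?_⟩
  · rw [mem_T_zero] at hx
    rw [hx, h2]
  · intro q hq ρ hρ
    rw [mem_T_zero] at hq
    subst hq
    rcases sq_eq (hρ.trans hr.symm) with h5 | h5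
    · rw [h5, h4]
    · rw [h5, map_neg, h4]

theorem PC_zero : PC I b 0 := by
  intro p hp r hr
  rw [mem_T_zero] at hp
  subst hp
  obtain ⟨v, hv⟩ := exists_sqrt (1 + p)
  obtain ⟨_, ⟨σ, h1, h2, h3, h4⟩⟩ := base_elements hI hb hfix hv hr
  refine ⟨σ, ⟨h1, h2, fun x hx => ?_⟩, h4⟩
  have hx' : x ^ 2 = v ^ 2 := by
    have : x ^ 2 - 1 = p := hx
    rw [hv]; linear_combination this
  rcases sq_eq hx' with h5 | h5
  · rw [h5, h3]
  · rw [h5, map_neg, h3]

theorem all_PC_PD (j : ℕ) : PC I b j ∧ PD I b j ∧ PC I b (j + 1) := by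
  induction j with
  | zero => exact ⟨PC_zero hI hb hfix, PD_zero hI hb hfix, PC_of hI hb 0 (PS_zero hI hb hfix)⟩
  | succ j ih =>
    obtain ⟨h1, h2, h3⟩ := ih
    exact ⟨h3, PD_of hI hb j h1 h2, PC_of hI hb (j + 1) (PS_of hI hb j h1 h2)⟩

theorem all_PP (j : ℕ) : PP I b j := by
  induction j with
  | zero =>
    intro w hw w' hw' hne
    rw [mem_T_zero] at hw hw'
    exact absurd (hw.trans hw'.symm) hne
  | succ j ih =>
    obtain ⟨h1, h2, _⟩ := all_PC_PD hI hb hfix j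
    exact PP_of hI hb j h1 h2 ih

end base

end Pool.Agent.Helper50.Basilica
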