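import Mathlib
import Pool.Agent.Helper50.Basilica.Defs
import Pool.Agent.Helper50.Basilica.Tower
import Pool.Agent.Helper50.Basilica.Count

set_option autoImplicit false
set_option linter.unusedSectionVars false

open Polynomial Filter Topology

namespace Pool.Agent.Helper50.Basilica

section aux

theorem aeval_fIter {A : Type*} [Field A] [Algebra ℚ A] (m : ℕ) (y : A) :
    aeval y (fIter m) = (fun x : A => x ^ 2 - 1)^[m] y := by
  induction m generalizing y with
  | zero => simp [fIter]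
  | succ m ih =>
    rw [fIter, aeval_comp, Function.iterate_succ_apply, ih]
    simp

theorem natDegree_fIter (m : ℕ) : (fIter m).natDegree = 2 ^ m := by
  induction m with
  | zero => simp [fIter]
  | succ m ih =>
    rw [fIter, natDegree_comp, ih]
    have : (X ^ 2 - 1 : ℚ[X]).natDegree = 2 := by
      have := natDegree_X_pow_sub_C (n := 2) (r := (1 : ℚ))
      simpa using this
    rw [this, pow_succ]

theorem P_ne_zero (m : ℕ) : fIter m - 1 ≠ 0 := by
  intro h
  have h1 : fIter m = 1 := by linear_combination h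
  have h2 := natDegree_fIter m
  rw [h1, natDegree_one] at h2
  have : 0 < 2 ^ m := by positivity
  omega

theorem mem_rootSet_iff {A : Type*} [Field A] [Algebra ℚ A] (m : ℕ) (y : A) :
    y ∈ (fIter m - 1).rootSet A ↔ (fun x : A => x ^ 2 - 1)^[m] y = 1 := by
  rw [mem_rootSet_of_ne (P_ne_zero m), map_sub, aeval_fIter, map_one, sub_eq_zero]

theorem iterate_surj {Ω : Type*} [Field Ω] [IsAlgClosed Ω] (j : ℕ) (z : Ω) :
    ∃ y : Ω, (fun x : Ω => x ^ 2 - 1)^[j] y = z := by
  induction j generalizing z with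
  | zero => exact ⟨z, rfl⟩
  | succ j ih =>
    obtain ⟨u, hu⟩ := ih z
    obtain ⟨y, hy⟩ := IsAlgClosed.exists_pow_nat_eq (1 + u) (n := 2) (by norm_num)
    refine ⟨y, ?_⟩
    rw [Function.iterate_succ_apply, hy]
    simpa using hu

theorem algebraMap_iterate {E Ω : Type*} [Field E] [Field Ω] [Algebra E Ω] (j : ℕ) (z : E) :
    algebraMap E Ω ((fun x : E => x ^ 2 - 1)^[j] z)
      = (fun x : Ω => x ^ 2 - 1)^[j] (algebraMap E Ω z) := by
  induction j generalizing z with
  | zero => rfl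
  | succ j ih =>
    rw [Function.iterate_succ_apply, Function.iterate_succ_apply, ih]
    simp

theorem finite_preimage {E : Type*} [Field E] (b : E) (m : ℕ) :
    {w : E | (fun x : E => x ^ 2 - 1)^[m] w = b}.Finite := by
  induction m with
  | zero =>
    simp only [Function.iterate_zero, id_eq]
    exact Set.finite_singleton b
  | succ m ih =>
    have : {w : E | (fun x : E => x ^ 2 - 1)^[m + 1] w = b} =
        (fun x : E => x ^ 2 - 1) ⁻¹' {w : E | (fun x : E => x ^ 2 - 1)^[m] w = b} := by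
      ext w
      simp only [Set.mem_preimage, Set.mem_ofPred_eq, Function.iterate_succ_apply]
    rw [this]
    apply Set.Finite.preimage' ih
    intro u _
    have h2 : ((fun x : E => x ^ 2 - 1) ⁻¹' {u}) ⊆
        ((X ^ 2 - C (1 + u) : E[X]).rootSet E) := by
      intro x hx
      simp only [Set.mem_preimage, Set.mem_singleton_iff] at hx
      rw [mem_rootSet_of_ne (X_pow_sub_C_ne_zero (by norm_num) _)]
      simp only [map_sub, map_pow, aeval_X, aeval_C, Algebra.algebraMap_self, RingHom.id_apply]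
      linear_combination hx
    exact Set.Finite.subset (rootSet_finite _ _) h2

end aux

section main

/-- Level `m` of the tree above `b`, as a finset. -/
noncomputable def lev {E : Type*} [Field E] (b : E) (m : ℕ) : Finset E :=
  (finite_preimage b m).toFinset

theorem mem_lev {E : Type*} [Field E] {b : E} {m : ℕ} {w : E} :
    w ∈ lev b m ↔ (fun x : E => x ^ 2 - 1)^[m] w = b := by
  unfold lev
  rw [Set.Finite.mem_toFinset]
  rfl

theorem level_bound {E Ω : Type*} [Field E] [Field Ω] [Algebra ℚ E] [Algebra ℚ Ω] [Algebra E Ω]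
    [IsScalarTower ℚ E Ω] [IsAlgClosure ℚ Ω] [Normal ℚ E]
    [Fintype (E ≃ₐ[ℚ] E)] (L n : ℕ) (hn : 1 ≤ n) (hL : n ^ 4 ≤ L)
    (hsplit : ((fIter (L + 1) - 1).map (algebraMap ℚ E)).Splits) (b : E) (hb : b ^ 2 = 2) :
    (nfp (E ≃ₐ[ℚ] E) (lev b L) : ℝ) ≤ 3 / n * Fintype.card (E ≃ₐ[ℚ] E) := by
  classical
  have : IsAlgClosed Ω := IsAlgClosure.isAlgClosed ℚ
  have : CharZero Ω := algebraRat.charZero Ω
  have : CharZero E := algebraRat.charZero E
  have hinj : Function.Injective (algebraMap E Ω) := (algebraMap E Ω).injective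
  -- roots lie in `E`
  have key : ∀ j ≤ L + 1, ∀ z : Ω, (fun x : Ω => x ^ 2 - 1)^[j] z = 1 →
      ∃ e : E, algebraMap E Ω e = z := by
    intro j hj z hz
    obtain ⟨y, hy⟩ := iterate_surj (L + 1 - j) z
    have hy1 : y ∈ (fIter (L + 1) - 1).rootSet Ω := by
      rw [mem_rootSet_iff]
      have : L + 1 = j + (L + 1 - j) := by omega
      rw [this, Function.iterate_add_apply, hy, hz]
    rw [← hsplit.image_rootSet_algebraMap] at hy1
    obtain ⟨e, _, he⟩ := hy1
    refine ⟨(fun x : E => x ^ 2 - 1)^[L + 1 - j] e, ?_⟩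
    rw [algebraMap_iterate, he, hy]
  obtain ⟨I, hI⟩ := exists_sqrt (-1 : Ω)
  have hbΩ : (algebraMap E Ω b) ^ 2 = 2 := by rw [← map_pow, hb, map_ofNat]
  have hfix : ∀ x : Ω, (∀ h : Ω ≃ₐ[ℚ] Ω, h x = x) → ∃ q : ℚ, algebraMap ℚ Ω q = x := by
    intro x hx
    exact (InfiniteGalois.mem_range_algebraMap_iff_fixed x).mpr hx
  have hlevT : ∀ m, ∀ w ∈ lev b m, algebraMap E Ω w ∈ T (algebraMap E Ω b) m := by
    intro m w hw
    rw [mem_lev] at hw
    have := congrArg (algebraMap E Ω) hw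
    rwa [algebraMap_iterate] at this
  have hsq : ∀ m < L, ∀ w ∈ lev b m, ∃ v : E, v ^ 2 = 1 + w := by
    intro m hm w hw
    obtain ⟨v, hv⟩ := exists_sqrt (1 + algebraMap E Ω w)
    obtain ⟨e, he⟩ := key (m + 2) (by omega) v (by
      rw [Function.iterate_succ_apply]
      have e1 : v ^ 2 - 1 = algebraMap E Ω w := by rw [hv]; ring
      rw [e1, Function.iterate_succ_apply']
      have e2 : (fun x : Ω => x ^ 2 - 1)^[m] (algebraMap E Ω w) = algebraMap E Ω b :=
        hlevT m w hw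
      rw [e2, hbΩ]; norm_num)
    refine ⟨e, hinj ?_⟩
    rw [map_pow, he, hv, map_add, map_one]
  let s : E → E := fun w => if h : ∃ v : E, v ^ 2 = 1 + w then h.choose else 0
  have hs : ∀ m < L, ∀ w ∈ lev b m, s w ^ 2 = 1 + w := by
    intro m hm w hw
    have h := hsq m hm w hw
    simp only [s, dif_pos h]
    exact h.choose_spec
  have hs0 : ∀ m < L, ∀ w ∈ lev b m, s w ≠ 0 := by
    intro m hm w hw h0
    have h1 := hs m hm w hw
    rw [h0] at h1
    apply one_add_ne hbΩ (hlevT m w hw)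
    rw [← map_one (algebraMap E Ω), ← map_add, ← h1]
    simp
  have hB : ∀ m < L, ∀ v, v ∈ lev b (m + 1) ↔ v ^ 2 - 1 ∈ lev b m := by
    intro m _ v
    rw [mem_lev, mem_lev, Function.iterate_succ_apply]
  -- restricting automorphisms
  have hres : ∀ m, ∀ h : Ω ≃ₐ[ℚ] Ω, Fx I (algebraMap E Ω b) m h → ∀ a ∈ lev b m,
      (h.restrictNormal E) • a = a := by
    intro m h hh a ha
    apply hinj
    rw [AlgEquiv.smul_def, AlgEquiv.restrictNormal_commutes]
    exact hh.2.2 _ (hlevT m a ha)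
  have hD : ∀ m < L, ∀ w ∈ lev b m, ∃ h : E ≃ₐ[ℚ] E, (∀ a ∈ lev b m, h • a = a) ∧
      h • s w = - s w := by
    intro m hm w hw
    obtain ⟨_, hPD, _⟩ := all_PC_PD hI hbΩ hfix m
    obtain ⟨h, h1, h2⟩ := hPD _ (hlevT m w hw) (algebraMap E Ω (s w))
      (by rw [← map_pow, hs m hm w hw, map_add, map_one])
    refine ⟨h.restrictNormal E, hres m h h1, hinj ?_⟩
    rw [AlgEquiv.smul_def, AlgEquiv.restrictNormal_commutes, h2, map_neg]
  have hP : ∀ m < L, ∀ w ∈ lev b m, ∀ w' ∈ lev b m, w ≠ w' →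
      ∃ h : E ≃ₐ[ℚ] E, (∀ a ∈ lev b m, h • a = a) ∧ h • (s w * s w') = - (s w * s w') := by
    intro m hm w hw w' hw' hne
    obtain ⟨h, h1, h2⟩ := all_PP hI hbΩ hfix m _ (hlevT m w hw) _ (hlevT m w' hw')
      (fun h => hne (hinj h)) (algebraMap E Ω (s w)) (algebraMap E Ω (s w'))
      (by rw [← map_pow, hs m hm w hw, map_add, map_one])
      (by rw [← map_pow, hs m hm w' hw', map_add, map_one])
    refine ⟨h.restrictNormal E, hres m h h1, hinj ?_⟩
    rw [AlgEquiv.smul_def, AlgEquiv.restrictNormal_commutes, map_mul, h2, map_neg, map_mul]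
  have hA0 : (lev b 0).card ≤ 1 := by
    rw [Finset.card_le_one]
    intro x hx y hy
    rw [mem_lev] at hx hy
    exact hx.trans hy.symm
  exact iterate_bound (A := fun m => lev b m) (s := s) (L := L) hs hs0 hB hD hP hA0 n hn hL

theorem count_bound {E : Type*} [Field E] [Algebra ℚ E] [FiniteDimensional ℚ E] [Normal ℚ E]
    (L n : ℕ) (hn : 1 ≤ n) (hL : n ^ 4 ≤ L)
    (hsplit : ((fIter (L + 1) - 1).map (algebraMap ℚ E)).Splits) :
    (Nat.card {σ : E ≃ₐ[ℚ] E // ∃ β ∈ (fIter (L + 1) - 1).rootSet E, σ β = β} : ℝ) ≤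
      6 / n * (Nat.card (E ≃ₐ[ℚ] E) : ℝ) := by
  classical
  have : CharZero E := algebraRat.charZero E
  have : Algebra.IsAlgebraic ℚ (AlgebraicClosure E) :=
    Algebra.IsAlgebraic.trans ℚ E (AlgebraicClosure E)
  have : IsAlgClosure ℚ (AlgebraicClosure E) := ⟨inferInstance, inferInstance⟩
  by_cases hroot : ∃ b : E, b ^ 2 = 2
  · obtain ⟨b, hb⟩ := hroot
    have h1 := level_bound (E := E) (Ω := AlgebraicClosure E) L n hn hL hsplit b hb
    have h2 := level_bound (E := E) (Ω := AlgebraicClosure E) L n hn hL hsplit (-b)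
      (by rw [neg_sq, hb])
    rw [Nat.card_eq_fintype_card, Fintype.card_subtype, Nat.card_eq_fintype_card]
    have h4 : (Finset.univ.filter (fun σ : (E ≃ₐ[ℚ] E) =>
          ∃ β ∈ (fIter (L + 1) - 1).rootSet E, σ β = β)) ⊆
        (Finset.univ.filter (fun σ : (E ≃ₐ[ℚ] E) => ∃ w ∈ lev b L, σ • w = w)) ∪
        (Finset.univ.filter (fun σ : (E ≃ₐ[ℚ] E) => ∃ w ∈ lev (-b) L, σ • w = w)) := by
      intro σ
      simp only [Finset.mem_filter, Finset.mem_univ, true_and, Finset.mem_union]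
      rintro ⟨β, hβ, hσ⟩
      rw [mem_rootSet_iff, Function.iterate_succ_apply'] at hβ
      have h5 : ((fun x : E => x ^ 2 - 1)^[L] β) ^ 2 = b ^ 2 := by
        rw [hb]; linear_combination hβ
      rcases sq_eq_sq_iff_eq_or_eq_neg.mp h5 with h6 | h6
      · exact Or.inl ⟨β, mem_lev.mpr h6, hσ⟩
      · exact Or.inr ⟨β, mem_lev.mpr h6, hσ⟩
    have h5 := (Finset.card_le_card h4).trans (Finset.card_union_le _ _)
    have h6 : nfp (E ≃ₐ[ℚ] E) (lev b L) =
        (Finset.univ.filter (fun σ : (E ≃ₐ[ℚ] E) => ∃ w ∈ lev b L, σ • w = w)).card := by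
      unfold nfp
      congr
    have h7 : nfp (E ≃ₐ[ℚ] E) (lev (-b) L) =
        (Finset.univ.filter (fun σ : (E ≃ₐ[ℚ] E) => ∃ w ∈ lev (-b) L, σ • w = w)).card := by
      unfold nfp
      congr
    rw [← h6, ← h7] at h5
    have h8 : ((Finset.univ.filter (fun σ : (E ≃ₐ[ℚ] E) =>
          ∃ β ∈ (fIter (L + 1) - 1).rootSet E, σ β = β)).card : ℝ) ≤
          nfp (E ≃ₐ[ℚ] E) (lev b L) + nfp (E ≃ₐ[ℚ] E) (lev (-b) L) := by exact_mod_cast h5
    have h9 : (6 : ℝ) / n * Fintype.card (E ≃ₐ[ℚ] E) = 3 / n * Fintype.card (E ≃ₐ[ℚ] E) +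
      3 / n * Fintype.card (E ≃ₐ[ℚ] E) := by ring
    rw [h9]
    linarith
  · -- then there is no root at all; the numerator vanishes
    have h0 : Nat.card {σ : E ≃ₐ[ℚ] E // ∃ β ∈ (fIter (L + 1) - 1).rootSet E, σ β = β} = 0 := by
      have : IsEmpty {σ : E ≃ₐ[ℚ] E // ∃ β ∈ (fIter (L + 1) - 1).rootSet E, σ β = β} := by
        refine ⟨?_⟩
        rintro ⟨σ, β, hβ, _⟩
        rw [mem_rootSet_iff, Function.iterate_succ_apply'] at hβ
        exact hroot ⟨_, by linear_combination hβ⟩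
      exact Nat.card_of_isEmpty
    rw [h0, Nat.cast_zero]
    positivity

theorem delta_bound (L n : ℕ) (hn : 1 ≤ n) (hL : n ^ 4 ≤ L) : delta (L + 1) ≤ 6 / n := by
  have hNor : @Normal ℚ (fIter (L + 1) - 1).SplittingField _ _
      (SplittingField.instAlgebra_1 (fIter (L + 1) - 1)) :=
    @Normal.of_isSplittingField ℚ _ (fIter (L + 1) - 1).SplittingField _
      (SplittingField.instAlgebra_1 (fIter (L + 1) - 1)) (fIter (L + 1) - 1) _
  have hFD : @FiniteDimensional ℚ (fIter (L + 1) - 1).SplittingField _ _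
      (SplittingField.instAlgebra_1 (fIter (L + 1) - 1)).toModule :=
    @Polynomial.IsSplittingField.finiteDimensional ℚ (fIter (L + 1) - 1).SplittingField _ _
      (SplittingField.instAlgebra_1 (fIter (L + 1) - 1)) (fIter (L + 1) - 1) _
  have h1 := @count_bound (fIter (L + 1) - 1).SplittingField _
    (SplittingField.instAlgebra_1 (fIter (L + 1) - 1)) hFD hNor L n hn hL
    (SplittingField.splits _)
  have hN : (0 : ℝ) < (Nat.card (fIter (L + 1) - 1).Gal : ℝ) := by
    exact_mod_cast Nat.card_pos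
  unfold delta
  rw [div_le_iff₀ hN]
  exact h1

theorem delta_nonneg (m : ℕ) : 0 ≤ delta m := by
  unfold delta
  positivity

end main

/-- The limit of the proportions `δ_m` is zero. -/
theorem tendsto_delta : Tendsto delta atTop (𝓝 0) := by
  rw [Metric.tendsto_atTop]
  intro ε hε
  obtain ⟨n, hn⟩ := exists_nat_gt (6 / ε)
  have hn0 : (0 : ℝ) < n := lt_trans (by positivity) hn
  have hn1 : 1 ≤ n := by
    have : 0 < n := by exact_mod_cast hn0
    omega
  refine ⟨n ^ 4 + 1, fun m hm => ?_⟩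
  obtain ⟨L, rfl⟩ : ∃ L, m = L + 1 := ⟨m - 1, by omega⟩
  have h1 := delta_bound L n hn1 (by omega)
  have h2 := delta_nonneg (L + 1)
  rw [Real.dist_eq, sub_zero, abs_of_nonneg h2]
  refine lt_of_le_of_lt h1 ?_
  rw [div_lt_iff₀ hn0]
  rw [div_lt_iff₀ hε] at hn
  linarith

end Pool.Agent.Helper50.Basilica
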